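import Mathlib
import Pool.Agent.X238.DW.Stm2

/-! Part EXB2 of the project DW: decay by the energy method, for bounded operators (after the scalar
case `Pool.Agent.X295.DW.EXB`). -/

set_option autoImplicit false

namespace Pool.Agent.X245.DW

open MeasureTheory Set Filter Topology Pool.Agent.X238.DW

universe v

lemma cross {b ε r z q i : ℝ} (h3 : 4 * ε ^ 2 ≤ b) (hε : 0 < ε) (hq : b * z ^ 2 ≤ q)
    (hi : |i| ≤ z * r) : |2 * ε * i| ≤ 1 / 2 * r ^ 2 + 1 / 2 * q := by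
  rw [abs_mul, abs_of_pos (by positivity : 0 < 2 * ε)]
  have h4 : 0 ≤ (r - 2 * ε * z) ^ 2 := sq_nonneg _
  have h5 : 4 * ε ^ 2 * z ^ 2 ≤ b * z ^ 2 := mul_le_mul_of_nonneg_right h3 (sq_nonneg _)
  have h6 : 2 * ε * |i| ≤ 2 * ε * (z * r) := mul_le_mul_of_nonneg_left hi (by positivity)
  nlinarith

/-- the inequality for the energy -/
lemma energy_ineq {c1 c2 c b ε δ r z q G i j k : ℝ} (hc1 : 0 < c1) (hc : c1 ≤ c) (hc2 : c ≤ c2)
    (hb : 0 < b) (hε : 0 < ε) (h1 : 4 * ε ≤ c1) (h2 : 8 * c2 ^ 2 * ε ≤ c1 * b) (h3 : 4 * ε ^ 2 ≤ b)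
    (hδ0 : 0 ≤ δ) (hδ : 2 * δ ≤ ε) (hq : b * z ^ 2 ≤ q) (hi : |i| ≤ z * r) (hj : j ≤ r * G)
    (hk : k ≤ z * G) :
    (-(2 * c * r ^ 2) + 2 * j + 2 * ε * r ^ 2 - 2 * ε * c * i - 2 * ε * q + 2 * ε * k) +
      δ * (r ^ 2 + q + 2 * ε * i) ≤ (2 / c1 + 2 * ε / b) * G ^ 2 := by
  have hc0 : 0 < c := hc1.trans_le hc
  have hq0 : 0 ≤ q := le_trans (by positivity) hq
  have e1 : 2 * j ≤ c1 / 2 * r ^ 2 + 2 / c1 * G ^ 2 := by
    have : 0 ≤ (c1 * r - 2 * G) ^ 2 / (2 * c1) := by positivity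
    have h : (c1 * r - 2 * G) ^ 2 / (2 * c1) = c1 / 2 * r ^ 2 + 2 / c1 * G ^ 2 - 2 * (r * G) := by
      field_simp
      ring
    linarith
  have e2 : 2 * ε * k ≤ ε / 2 * q + 2 * ε / b * G ^ 2 := by
    have : 0 ≤ ε * (b * z - 2 * G) ^ 2 / (2 * b) := by positivity
    have h : ε * (b * z - 2 * G) ^ 2 / (2 * b) =
        ε / 2 * (b * z ^ 2) + 2 * ε / b * G ^ 2 - 2 * ε * (z * G) := by
      field_simp
      ring
    have h' : 2 * ε * k ≤ 2 * ε * (z * G) := mul_le_mul_of_nonneg_left hk (by positivity)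
    have h'' : ε / 2 * (b * z ^ 2) ≤ ε / 2 * q := mul_le_mul_of_nonneg_left hq (by positivity)
    linarith
  have e3 : -(2 * ε * c * i) ≤ ε / 2 * q + c1 / 4 * r ^ 2 := by
    have h4 : 0 ≤ ε * (b * z - 2 * c * r) ^ 2 / (2 * b) := by positivity
    have h5 : ε * (b * z - 2 * c * r) ^ 2 / (2 * b) =
        ε / 2 * (b * z ^ 2) + 2 * ε * c ^ 2 / b * r ^ 2 - 2 * ε * c * (z * r) := by
      field_simp
      ring
    have h6 : 2 * ε * c ^ 2 / b ≤ c1 / 4 := by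
      rw [div_le_iff₀ hb]
      have : c ^ 2 ≤ c2 ^ 2 := pow_le_pow_left₀ hc0.le hc2 2
      nlinarith
    have h7 : 2 * ε * c ^ 2 / b * r ^ 2 ≤ c1 / 4 * r ^ 2 :=
      mul_le_mul_of_nonneg_right h6 (sq_nonneg _)
    have h8 : ε / 2 * (b * z ^ 2) ≤ ε / 2 * q := mul_le_mul_of_nonneg_left hq (by positivity)
    have h9 : -(2 * ε * c * i) ≤ 2 * ε * c * (z * r) := by
      have : -i ≤ z * r := (neg_le_abs i).trans hi
      have h10 : 2 * ε * c * (-i) ≤ 2 * ε * c * (z * r) := mul_le_mul_of_nonneg_left this (by positivity)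
      linarith
    linarith
  have e4 : 2 * ε * i ≤ 1 / 2 * r ^ 2 + 1 / 2 * q := (le_abs_self _).trans (cross h3 hε hq hi)
  have e5 : δ * (r ^ 2 + q + 2 * ε * i) ≤ ε / 2 * (3 / 2 * r ^ 2 + 3 / 2 * q) := by
    have h4 : r ^ 2 + q + 2 * ε * i ≤ 3 / 2 * r ^ 2 + 3 / 2 * q := by linarith
    have h5 : 0 ≤ 3 / 2 * r ^ 2 + 3 / 2 * q := by positivity
    calc δ * (r ^ 2 + q + 2 * ε * i) ≤ δ * (3 / 2 * r ^ 2 + 3 / 2 * q) :=
          mul_le_mul_of_nonneg_left h4 hδ0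
      _ ≤ ε / 2 * (3 / 2 * r ^ 2 + 3 / 2 * q) := mul_le_mul_of_nonneg_right (by linarith) h5
  have e6 : -(2 * c * r ^ 2) ≤ -(2 * c1 * r ^ 2) := by nlinarith [sq_nonneg r]
  have e7 : ε * r ^ 2 ≤ c1 / 4 * r ^ 2 := mul_le_mul_of_nonneg_right (by linarith) (sq_nonneg _)
  have e8 : 0 ≤ c1 * r ^ 2 := by positivity
  have e9 : 0 ≤ ε * q := by positivity
  have e10 : (2 / c1 + 2 * ε / b) * G ^ 2 = 2 / c1 * G ^ 2 + 2 * ε / b * G ^ 2 := by ring
  rw [e10]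
  nlinarith

/-- **EXB2** -/
theorem t_EXB2 : S_EXB2.{v} := by
  intro c1 c2 b hc1 hc12 hb
  have hc2 : 0 < c2 := hc1.trans_le hc12
  obtain ⟨ε, hε, h1, h2, h3, h31⟩ : ∃ ε : ℝ, 0 < ε ∧ 4 * ε ≤ c1 ∧ 8 * c2 ^ 2 * ε ≤ c1 * b ∧
      4 * ε ≤ b ∧ ε ≤ 1 := by
    refine ⟨min (min (c1 / 4) (c1 * b / (8 * c2 ^ 2))) (min (b / 4) 1), ?_, ?_, ?_, ?_, ?_⟩
    · positivity
    · have : min (min (c1 / 4) (c1 * b / (8 * c2 ^ 2))) (min (b / 4) 1) ≤ c1 / 4 :=
        (min_le_left _ _).trans (min_le_left _ _)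
      linarith
    · have : min (min (c1 / 4) (c1 * b / (8 * c2 ^ 2))) (min (b / 4) 1) ≤ c1 * b / (8 * c2 ^ 2) :=
        (min_le_left _ _).trans (min_le_right _ _)
      rw [le_div_iff₀ (by positivity)] at this
      linarith
    · have : min (min (c1 / 4) (c1 * b / (8 * c2 ^ 2))) (min (b / 4) 1) ≤ b / 4 :=
        (min_le_right _ _).trans (min_le_left _ _)
      linarith
    · exact (min_le_right _ _).trans (min_le_right _ _)
  have h32 : 4 * ε ^ 2 ≤ b := by nlinarith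
  refine ⟨ε / 2, by positivity, ?_⟩
  intro γ hγ hγ0
  obtain ⟨K, hK⟩ : ∃ K : ℝ, K = 2 / c1 + 2 * ε / b := ⟨_, rfl⟩
  have hK0 : 0 < K := by rw [hK]; positivity
  obtain ⟨B, hB⟩ : ∃ B : ℝ, B = 1 + K / γ := ⟨_, rfl⟩
  have hB0 : 0 < B := by rw [hB]; positivity
  obtain ⟨C, hC⟩ : ∃ C : ℝ, C = 2 * B + 2 * B / b + 1 := ⟨_, rfl⟩
  have hC1 : 1 ≤ C := by
    have : 0 ≤ 2 * B + 2 * B / b := by positivity
    linarith
  refine ⟨C, by linarith, ?_⟩
  intro V _ _ _ A hA c hc Z R g m hm hZ hR hZ0 hg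
  set E : ℝ → ℝ := fun s => inner ℝ (R s) (R s) + inner ℝ (A (Z s)) (Z s) +
    2 * ε * inner ℝ (Z s) (R s) with hE
  have hq : ∀ s, b * ‖Z s‖ ^ 2 ≤ inner ℝ (A (Z s)) (Z s) := fun s => hA.coer (Z s)
  have hi : ∀ s, |inner ℝ (Z s) (R s)| ≤ ‖Z s‖ * ‖R s‖ := fun s => abs_real_inner_le_norm _ _
  have hElow : ∀ s, 1 / 2 * (‖R s‖ ^ 2 + inner ℝ (A (Z s)) (Z s)) ≤ E s := by
    intro s
    have h4 := (neg_le_abs (2 * ε * inner ℝ (Z s) (R s))).trans (cross h32 hε (hq s) (hi s))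
    rw [hE]
    dsimp only
    rw [real_inner_self_eq_norm_sq]
    linarith
  set E' : ℝ → ℝ := fun s => -(2 * c * ‖R s‖ ^ 2) + 2 * inner ℝ (R s) (g s) + 2 * ε * ‖R s‖ ^ 2 -
    2 * ε * c * inner ℝ (Z s) (R s) - 2 * ε * inner ℝ (A (Z s)) (Z s) +
    2 * ε * inner ℝ (Z s) (g s) with hE'
  have hder : ∀ s : ℝ, 0 ≤ s → HasDerivAt E (E' s) s := by
    intro s hs
    have hAZ : HasDerivAt (fun t => A (Z t)) (A (R s)) s :=
      A.hasFDerivAt.comp_hasDerivAt s (hZ s hs)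
    have h4 := ((hR s hs).inner ℝ (hR s hs)).add (hAZ.inner ℝ (hZ s hs))
    have h5 := h4.add (((hZ s hs).inner ℝ (hR s hs)).const_mul (2 * ε))
    refine h5.congr_deriv ?_
    rw [hE']
    dsimp only
    have hs1 : inner ℝ (A (R s)) (Z s) = inner ℝ (A (Z s)) (R s) := by
      rw [hA.symm, real_inner_comm]
    have hs2 : inner ℝ (R s) (A (Z s)) = inner ℝ (A (Z s)) (R s) := real_inner_comm _ _
    have hs3 : inner ℝ (Z s) (A (Z s)) = inner ℝ (A (Z s)) (Z s) := real_inner_comm _ _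
    have hs4 : inner ℝ (g s) (R s) = inner ℝ (R s) (g s) := real_inner_comm _ _
    simp only [inner_add_right, inner_sub_right, inner_neg_right, inner_smul_right, inner_add_left,
      inner_sub_left, inner_neg_left, inner_smul_left, real_inner_self_eq_norm_sq, hs1, hs2, hs3,
      hs4, conj_trivial]
    ring
  set F : ℝ → ℝ := fun s => Real.exp (γ * s) * E s + K * m ^ 2 / γ * Real.exp (-(γ * s)) with hF
  have hFder : ∀ s : ℝ, 0 ≤ s → HasDerivAt F (Real.exp (γ * s) * (E' s + γ * E s) -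
      K * m ^ 2 * Real.exp (-(γ * s))) s := by
    intro s hs
    have h4 : HasDerivAt (fun s : ℝ => Real.exp (γ * s)) (Real.exp (γ * s) * (γ * 1)) s :=
      ((hasDerivAt_id s).const_mul γ).exp
    have h5 : HasDerivAt (fun s : ℝ => Real.exp (-(γ * s))) (Real.exp (-(γ * s)) * (-(γ * 1))) s :=
      ((hasDerivAt_id s).const_mul γ).neg.exp
    have h6 := (h4.mul (hder s hs)).add (h5.const_mul (K * m ^ 2 / γ))
    refine h6.congr_deriv ?_
    field_simp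
    ring
  have hanti : AntitoneOn F (Ici 0) := by
    apply antitoneOn_of_deriv_nonpos (convex_Ici 0)
    · exact fun s hs => (hFder s hs).continuousAt.continuousWithinAt
    · intro s hs
      rw [interior_Ici] at hs
      exact (hFder s (le_of_lt hs)).differentiableAt.differentiableWithinAt
    · intro s hs
      rw [interior_Ici] at hs
      have hs0 : (0 : ℝ) ≤ s := le_of_lt hs
      rw [(hFder s hs0).deriv]
      have h4 : E' s + γ * E s ≤ K * ‖g s‖ ^ 2 := by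
        have h5 := energy_ineq (G := ‖g s‖) (j := inner ℝ (R s) (g s)) (k := inner ℝ (Z s) (g s))
          hc1 hc.1 hc.2 hb hε h1 h2 h32 hγ.le (by linarith) (hq s) (hi s)
          (real_inner_le_norm _ _) (real_inner_le_norm _ _)
        rw [hE', hE, hK]
        dsimp only
        rw [real_inner_self_eq_norm_sq]
        exact h5
      have h5 : ‖g s‖ ^ 2 ≤ m ^ 2 * Real.exp (-(γ * s)) ^ 2 := by
        rw [← mul_pow]
        exact pow_le_pow_left₀ (norm_nonneg _) (hg s hs0) 2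
      have h6 : Real.exp (γ * s) * Real.exp (-(γ * s)) = 1 := by rw [← Real.exp_add]; simp
      have h7 : Real.exp (γ * s) * (E' s + γ * E s) ≤ K * m ^ 2 * Real.exp (-(γ * s)) := by
        calc Real.exp (γ * s) * (E' s + γ * E s) ≤
              Real.exp (γ * s) * (K * (m ^ 2 * Real.exp (-(γ * s)) ^ 2)) :=
              mul_le_mul_of_nonneg_left (h4.trans (mul_le_mul_of_nonneg_left h5 hK0.le))
                (Real.exp_pos _).le
          _ = K * m ^ 2 * Real.exp (-(γ * s)) * (Real.exp (γ * s) * Real.exp (-(γ * s))) := by ring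
          _ = _ := by rw [h6, mul_one]
      linarith
  obtain ⟨N, hN⟩ : ∃ N : ℝ, N = ‖R 0‖ + m := ⟨_, rfl⟩
  have hN0 : 0 ≤ N := by rw [hN]; positivity
  have hmain : ∀ s : ℝ, 0 ≤ s →
      ‖R s‖ ^ 2 + inner ℝ (A (Z s)) (Z s) ≤ 2 * B * N ^ 2 * Real.exp (-(γ * s)) := by
    intro s hs
    have h4 := hanti (mem_Ici.2 le_rfl) (mem_Ici.2 hs) hs
    have h5 : F 0 ≤ B * N ^ 2 := by
      have h6 : F 0 = ‖R 0‖ ^ 2 + K / γ * m ^ 2 := by
        rw [hF]
        dsimp only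
        rw [mul_zero, neg_zero, Real.exp_zero, hE]
        dsimp only
        rw [hZ0, real_inner_self_eq_norm_sq, inner_zero_right, inner_zero_left]
        ring
      rw [h6]
      have hRN : ‖R 0‖ ^ 2 ≤ N ^ 2 :=
        pow_le_pow_left₀ (norm_nonneg _) (by rw [hN]; linarith) 2
      have hmN : m ^ 2 ≤ N ^ 2 :=
        pow_le_pow_left₀ hm (by rw [hN]; linarith [norm_nonneg (R 0)]) 2
      have h9 : K / γ * m ^ 2 ≤ K / γ * N ^ 2 := mul_le_mul_of_nonneg_left hmN (by positivity)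
      rw [hB]
      linarith
    have h6 : Real.exp (γ * s) * E s ≤ F s := by
      rw [hF]
      dsimp only
      have : 0 ≤ K * m ^ 2 / γ * Real.exp (-(γ * s)) := by positivity
      linarith
    have h7 : Real.exp (γ * s) * E s ≤ B * N ^ 2 := h6.trans (h4.trans h5)
    have h8 : E s ≤ B * N ^ 2 * Real.exp (-(γ * s)) := by
      rw [Real.exp_neg, ← div_eq_mul_inv, le_div_iff₀ (Real.exp_pos _), mul_comm]
      exact h7
    have h9 := hElow s
    linarith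
  intro s hs
  have h4 := hmain s hs
  have hqs := hq s
  rw [← hN]
  have hexp : Real.exp (-(γ / 2 * s)) ^ 2 = Real.exp (-(γ * s)) := by
    rw [← Real.exp_nat_mul]
    congr 1
    push_cast
    ring
  have hpos : 0 ≤ C * N * Real.exp (-(γ / 2 * s)) := by positivity
  have hsq : (C * N * Real.exp (-(γ / 2 * s))) ^ 2 = C ^ 2 * N ^ 2 * Real.exp (-(γ * s)) := by
    rw [mul_pow, mul_pow, hexp]
  have hX : 0 ≤ N ^ 2 * Real.exp (-(γ * s)) := by positivity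
  have hC2 : C ≤ C ^ 2 := by nlinarith
  have hBC : 2 * B ≤ C ^ 2 := by
    have : 0 ≤ 2 * B / b := by positivity
    linarith
  have hBC' : 2 * B / b ≤ C ^ 2 := by linarith
  constructor
  · apply le_of_sq_le_sq _ hpos
    rw [hsq]
    have h5 : ‖Z s‖ ^ 2 ≤ 2 * B / b * (N ^ 2 * Real.exp (-(γ * s))) := by
      rw [div_mul_eq_mul_div, le_div_iff₀ hb]
      nlinarith [sq_nonneg ‖R s‖]
    calc ‖Z s‖ ^ 2 ≤ 2 * B / b * (N ^ 2 * Real.exp (-(γ * s))) := h5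
      _ ≤ C ^ 2 * (N ^ 2 * Real.exp (-(γ * s))) := mul_le_mul_of_nonneg_right hBC' hX
      _ = _ := by ring
  · apply le_of_sq_le_sq _ hpos
    rw [hsq]
    have h5 : ‖R s‖ ^ 2 ≤ 2 * B * (N ^ 2 * Real.exp (-(γ * s))) := by
      have : 0 ≤ b * ‖Z s‖ ^ 2 := by positivity
      linarith
    calc ‖R s‖ ^ 2 ≤ 2 * B * (N ^ 2 * Real.exp (-(γ * s))) := h5
      _ ≤ C ^ 2 * (N ^ 2 * Real.exp (-(γ * s))) := mul_le_mul_of_nonneg_right hBC hX
      _ = _ := by ring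

end Pool.Agent.X245.DW
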